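import Pool.Agent.Lib_helper99.FGA.FinalU

/-!
# The Friedlander-Goldston asymptotic for almost all moduli

`result`: the asymptotic of the problem in mean over the primes, and over the integers, `Q` in
`(Y, 2Y]`; part (1) is inside the range of the problem, parts (2) and (3) have the second order term.
-/

set_option autoImplicit false

namespace Pool.Agent.Results.MP_5dd4bb_nt.AlmostAllModuli

open Finset ArithmeticFunction

/-- the variance `G(X,Q)` of the problem -/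
noncomputable def G (X : ℝ) (Q : ℕ) : ℝ :=
  ∑ a ∈ (Finset.range Q).filter (fun a => Nat.Coprime a Q),
    ((∑ n ∈ (Finset.Icc 1 ⌊X⌋₊).filter (fun n => n ≡ a [MOD Q]), vonMangoldt n)
      - X / (Nat.totient Q : ℝ)) ^ 2

/-- the conjectured value `X log Q - C_Q X` of `G(X,Q)` -/
noncomputable def M (X : ℝ) (Q : ℕ) : ℝ :=
  X * (Real.log Q - (Real.eulerMascheroniConstant + Real.log (2 * Real.pi)
    + ∑ p ∈ Q.primeFactors, Real.log (p : ℝ) / ((p : ℝ) - 1)))

open scoped Classical in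
/-- the part of `G(X,Q)` carried by the characters modulo `Q` of conductor at most
`(X / Q) (log X) ^ 8` -/
noncomputable def L (X : ℝ) (Q : ℕ) : ℝ :=
  (1 / (Nat.totient Q : ℝ)) * ∑ χ : DirichletCharacter ℂ Q,
    if (χ.conductor : ℝ) ≤ X / Q * Real.log X ^ 8 then
      ‖∑ n ∈ Finset.Icc 1 ⌊X⌋₊, ((vonMangoldt n : ℝ) : ℂ) * χ (n : ZMod Q)
        - (if χ = 1 then (X : ℂ) else 0)‖ ^ 2 else 0

/-- the integers `Q` with `Y < Q ≤ 2Y` -/
noncomputable def I (Y : ℝ) : Finset ℕ :=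
  (Finset.Icc 1 ⌊2 * Y⌋₊).filter (fun Q : ℕ => Y < Q)

/-- the primes `Q` with `Y < Q ≤ 2Y` -/
noncomputable def P (Y : ℝ) : Finset ℕ :=
  (Finset.Icc 1 ⌊2 * Y⌋₊).filter (fun Q : ℕ => Q.Prime ∧ Y < Q)

/-- `X` is an integer and `|ψ(X) - X| ≤ X^(3/4)` -/
def Near (X : ℝ) : Prop :=
  ∃ N : ℕ, X = N ∧ |∑ n ∈ Finset.Icc 1 N, vonMangoldt n - N| ≤ (N : ℝ) ^ (3 / 4 : ℝ)

/-- The uniform form from which `result` is read off: a family in `D` (from an unbounded set `S`), `X`
in `[D ^ B, exp (D ^ c)]` and `Y`, for the integers and for the primes `Q` in `(Y, 2Y]`. -/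
theorem uniform :
    ∃ S : Set ℕ, ¬ BddAbove S ∧ ∃ c C B : ℝ, 0 < c ∧ 0 < C ∧ 1 ≤ B ∧
    (∀ D ∈ S, ∀ X Y : ℝ, (D : ℝ) ^ B ≤ X → X ≤ Real.exp ((D : ℝ) ^ c) →
      X * (D : ℝ) ^ (-c) ≤ Y → Y ≤ X / C →
      ∀ (T : Finset ℕ) (w t : ℝ), (T = I Y ∧ w = Y ∧ t = 1 / Real.log X) ∨
        (T = P Y ∧ w = Y / Real.log Y ∧ t = (D : ℝ) ^ (-c)) →
      ∀ F : ℕ → ℝ, (F = L X ∨
        (F = 0 ∧ X * Real.exp (-(c * Real.log X / Real.log D)) ≤ Y) ∨
        (F = 0 ∧ T = P Y ∧ Near X)) →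
      ∑ Q ∈ T, |G X Q - F Q - M X Q| ≤
        C * (Real.exp (-(c * Real.log X / Real.log D)) * Real.log X + (Y / X) ^ (1 / 4 : ℝ) + t) *
          X * w) ∧
    (∃ X₀ : ℝ, ∀ x : ℝ, X₀ ≤ x → ∃ X : ℝ, x ≤ X ∧ X ≤ x ^ 40 ∧ Near X) := by
  obtain ⟨S, hS, c, C, B, hc, hC, hB, h⟩ := Pool.Agent.FGA.finalU
  refine ⟨S, hS, c, C, B, hc, hC, hB, ?_, ?_⟩
  · intro D hD X Y hX hX2 hY hYX T w t hT F hF
    refine le_trans (le_of_eq ?_) (h D hD X Y hX hX2 hY hYX T w t hT F ?_)
    · refine sum_congr rfl fun Q _ => ?_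
      rw [Pool.Agent.FGA.prim_gx]
      rfl
    · rcases hF with rfl | ⟨rfl, h1⟩ | ⟨rfl, h1, h2⟩
      · exact Or.inl fun Q => rfl
      · exact Or.inr ⟨fun Q => rfl, Or.inl h1⟩
      · exact Or.inr ⟨fun Q => rfl, Or.inr ⟨h1, h2⟩⟩
  · obtain ⟨Z₀, hZ⟩ := Pool.Agent.NZ.near_zero
    refine ⟨Z₀, fun x hx => ?_⟩
    obtain ⟨N, h1, h2, h3⟩ := hZ x hx
    exact ⟨N, h1, h2, N, rfl, h3⟩

open Filter Topology

/-- The asymptotic `G(X,Q) = X log Q - C_Q X` of the problem for almost all moduli, in mean: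
* (1) in the range of the problem, relative error `O(exp(-c/δ))` at `Q = X ^ (1 - δ)`;
* (2) and (3) with the second order term, error `o(X)` for `Y = o(X)`.
`G - L` is `G` without the characters of small conductor; for primes `Q`, and in (3), nothing is
removed. -/
theorem result : ∃ c C : ℝ, 0 < c ∧ 0 < C ∧
    -- (1) in the range of the problem: relative error `O(exp(-c/δ))` at `Q = X ^ (1 - δ)`
    (∀ δ : ℝ, 0 < δ → δ ≤ c → ∀ x : ℝ, ∃ X : ℝ, x ≤ X ∧
      ∀ Y : ℝ, X ^ (1 - δ) ≤ Y → Y ≤ X / C →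
      ∑ Q ∈ P Y, |G X Q - M X Q| ≤
        C * Real.exp (-(c / δ)) * (X * Real.log X) * (Y / Real.log Y) ∧
      ∑ Q ∈ I Y, |G X Q - L X Q - M X Q| ≤
        C * Real.exp (-(c / δ)) * (X * Real.log X) * Y) ∧
    -- (2) the second order term for `Q ≥ X ^ (1 - c / log log X)`
    (∀ x : ℝ, ∃ X : ℝ, x ≤ X ∧
      ∀ Y : ℝ, X ^ (1 - c / Real.log (Real.log X)) ≤ Y → Y ≤ X / C →
      ∑ Q ∈ P Y, |G X Q - M X Q| ≤
        C * ((Y / X) ^ (1 / 4 : ℝ) + 1 / Real.log X) * X * (Y / Real.log Y) ∧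
      ∑ Q ∈ I Y, |G X Q - L X Q - M X Q| ≤
        C * ((Y / X) ^ (1 / 4 : ℝ) + 1 / Real.log X) * X * Y) ∧
    -- (3) nothing removed, and all `X` of arbitrarily large and long intervals
    (∀ x : ℝ, ∃ Z : ℝ, x ≤ Z ∧
      ∀ X : ℝ, Z ≤ X → X ≤ Real.exp (Real.exp (c * Real.sqrt (Real.log Z))) →
      ∀ Y : ℝ, X * Real.exp (-(c * Real.sqrt (Real.log Z))) ≤ Y → Y ≤ X / C →
      ∑ Q ∈ P Y, |G X Q - M X Q| ≤
        C * ((Y / X) ^ (1 / 4 : ℝ) + 1 / Real.log X) * X * (Y / Real.log Y) ∧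
      ∑ Q ∈ I Y, |G X Q - M X Q| ≤
        C * ((Y / X) ^ (1 / 4 : ℝ) + 1 / Real.log X) * X * Y) := by
  obtain ⟨S, hS, c₁, C₁, B, hc₁, hC₁, hB, h, X₀, hX₀⟩ := uniform
  have hlarge : ∀ n : ℝ, ∃ D ∈ S, n ≤ (D : ℝ) := by
    intro n
    by_contra hcon
    push Not at hcon
    apply hS
    refine ⟨⌈n⌉₊, fun D hD => ?_⟩
    have h1 := hcon D hD
    have h2 : (D : ℝ) < ⌈n⌉₊ := h1.trans_le (Nat.le_ceil n)
    exact_mod_cast h2.le
  set c : ℝ := min (min 1 (c₁ / (40 * B))) (min (c₁ ^ 2 / 160) c₁) with hc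
  have hc0 : 0 < c := by
    refine lt_min (lt_min one_pos (by positivity)) (lt_min (by positivity) hc₁)
  have hc1 : c ≤ 1 := (min_le_left _ _).trans (min_le_left _ _)
  have hcB : c ≤ c₁ / (40 * B) := (min_le_left _ _).trans (min_le_right _ _)
  have hc2 : c ≤ c₁ ^ 2 / 160 := (min_le_right _ _).trans (min_le_left _ _)
  have hc3 : c ≤ c₁ := (min_le_right _ _).trans (min_le_right _ _)
  set C : ℝ := 3 * C₁ + 1 with hC
  have hC0 : 0 < C := by positivity
  have hCC : C₁ ≤ C := by rw [hC]; linarith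
  have hXC : ∀ X Y : ℝ, 0 ≤ X → Y ≤ X / C → Y ≤ X / C₁ := by
    intro X Y hX hY
    refine hY.trans ?_
    exact div_le_div_of_nonneg_left hX hC₁ hCC
  -- one `D`, `X` and `Y`, with the error `E`
  have main : ∀ D ∈ S, 2 ≤ (D : ℝ) → ∀ X Y E : ℝ, 3 ≤ X → (D : ℝ) ^ B ≤ X →
      X ≤ Real.exp ((D : ℝ) ^ c₁) → X * (D : ℝ) ^ (-c₁) ≤ Y → 1 ≤ Y → Y ≤ X / C →
      Real.exp (-(c₁ * Real.log X / Real.log D)) * Real.log X +
        (Y / X) ^ (1 / 4 : ℝ) + 1 / Real.log X ≤ 3 * E →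
      Real.exp (-(c₁ * Real.log X / Real.log D)) * Real.log X +
        (Y / X) ^ (1 / 4 : ℝ) + (D : ℝ) ^ (-c₁) ≤ 3 * E → 0 ≤ E →
      ((Near X ∨ X * Real.exp (-(c₁ * Real.log X / Real.log D)) ≤ Y) →
        ∑ Q ∈ P Y, |G X Q - M X Q| ≤ C * E * X * (Y / Real.log Y)) ∧
      ∑ Q ∈ I Y, |G X Q - L X Q - M X Q| ≤ C * E * X * Y ∧
      (X * Real.exp (-(c₁ * Real.log X / Real.log D)) ≤ Y →
        ∑ Q ∈ I Y, |G X Q - M X Q| ≤ C * E * X * Y) := by
    intro D hDS hD2 X Y E hX3 g1 g2 g3 hY1 g4 e1 e2 hE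
    have hX0 : 0 < X := by linarith
    have hY0 : 0 < Y := by linarith
    have g4' : Y ≤ X / C₁ := hXC X Y hX0.le g4
    have h3 : 0 ≤ Y / Real.log Y := div_nonneg hY0.le (Real.log_nonneg hY1)
    have k4 : ∀ t : ℝ, Real.exp (-(c₁ * Real.log X / Real.log D)) * Real.log X +
        (Y / X) ^ (1 / 4 : ℝ) + t ≤ 3 * E →
        C₁ * (Real.exp (-(c₁ * Real.log X / Real.log D)) * Real.log X +
        (Y / X) ^ (1 / 4 : ℝ) + t) ≤ C * E := by
      intro t ht
      calc _ ≤ C₁ * (3 * E) := mul_le_mul_of_nonneg_left ht hC₁.le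
        _ ≤ C * E := by
            rw [hC]
            nlinarith
    refine ⟨fun hN => ?_, ?_, fun g5 => ?_⟩
    · have h1 := h D hDS X Y g1 g2 g3 g4' (P Y) (Y / Real.log Y) ((D : ℝ) ^ (-c₁))
        (Or.inr ⟨rfl, rfl, rfl⟩) 0 (by
          rcases hN with hN | hN
          · exact Or.inr (Or.inr ⟨rfl, rfl, hN⟩)
          · exact Or.inr (Or.inl ⟨rfl, hN⟩))
      refine le_trans (le_of_eq ?_) (h1.trans ?_)
      · refine sum_congr rfl fun Q _ => ?_
        simp
      · apply mul_le_mul_of_nonneg_right _ h3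
        exact mul_le_mul_of_nonneg_right (k4 _ e2) hX0.le
    · have h1 := h D hDS X Y g1 g2 g3 g4' (I Y) Y (1 / Real.log X)
        (Or.inl ⟨rfl, rfl, rfl⟩) (L X) (Or.inl rfl)
      refine h1.trans ?_
      apply mul_le_mul_of_nonneg_right _ hY0.le
      exact mul_le_mul_of_nonneg_right (k4 _ e1) hX0.le
    · have h1 := h D hDS X Y g1 g2 g3 g4' (I Y) Y (1 / Real.log X)
        (Or.inl ⟨rfl, rfl, rfl⟩) 0 (Or.inr (Or.inl ⟨rfl, g5⟩))
      refine le_trans (le_of_eq ?_) (h1.trans ?_)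
      · refine sum_congr rfl fun Q _ => ?_
        simp
      · apply mul_le_mul_of_nonneg_right _ hY0.le
        exact mul_le_mul_of_nonneg_right (k4 _ e1) hX0.le
  -- `D` and `X` in `[D ^ a, D ^ (40 a)]` with `Near X`
  have pick : ∀ (D : ℕ) (a : ℝ), 2 ≤ (D : ℝ) → 1 ≤ a → B ≤ a → X₀ ≤ (D : ℝ) ^ a →
      3 ≤ (D : ℝ) ^ a → 40 * (a * Real.log D) ≤ (D : ℝ) ^ c₁ →
      ∃ X : ℝ, (D : ℝ) ^ a ≤ X ∧ Near X ∧ 3 ≤ X ∧ (D : ℝ) ^ B ≤ X ∧
        X ≤ Real.exp ((D : ℝ) ^ c₁) ∧ a * Real.log D ≤ Real.log X ∧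
        Real.log X ≤ 40 * (a * Real.log D) := by
    intro D a hD2 ha haB d3 d6 d5
    have hDpos : (0 : ℝ) < D := by linarith
    obtain ⟨X, hX1, hX2, hN⟩ := hX₀ ((D : ℝ) ^ a) d3
    have hX3 : 3 ≤ X := d6.trans hX1
    have hX0 : 0 < X := by linarith
    have l1 : a * Real.log D ≤ Real.log X := by
      rw [← Real.log_rpow hDpos]
      exact Real.log_le_log (by positivity) hX1
    have l2 : Real.log X ≤ 40 * (a * Real.log D) := by
      have h1 := Real.log_le_log hX0 hX2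
      rw [Real.log_pow, Real.log_rpow hDpos] at h1
      push_cast at h1
      linarith
    refine ⟨X, hX1, hN, hX3, (Real.rpow_le_rpow_of_exponent_le (by linarith) haB).trans hX1,
      ?_, l1, l2⟩
    rw [← Real.log_le_iff_le_exp hX0]
    linarith
  -- the lower bound for `Y`
  have low : ∀ (D : ℕ) (X Y δ : ℝ), 2 ≤ (D : ℝ) → 3 ≤ X → Real.log X * δ ≤ c₁ * Real.log D →
      X ^ (1 - δ) ≤ Y → X * (D : ℝ) ^ (-c₁) ≤ Y := by
    intro D X Y δ hD2 hX3 hl hY1
    have hDpos : (0 : ℝ) < D := by linarith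
    have hX0 : 0 < X := by linarith
    refine le_trans ?_ hY1
    rw [Real.rpow_sub hX0, Real.rpow_one, div_eq_mul_inv, ← Real.rpow_neg hX0.le]
    apply mul_le_mul_of_nonneg_left _ hX0.le
    rw [Real.rpow_neg hDpos.le, Real.rpow_neg hX0.le]
    apply inv_anti₀ (by positivity)
    rw [Real.rpow_def_of_pos hX0, Real.rpow_def_of_pos hDpos]
    apply Real.exp_le_exp.2
    linarith
  have hquarter : ∀ X Y : ℝ, 3 ≤ X → 1 ≤ Y → Y ≤ X / C →
      0 ≤ (Y / X) ^ (1 / 4 : ℝ) ∧ (Y / X) ^ (1 / 4 : ℝ) ≤ 1 := by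
    intro X Y hX hY hYX
    have hX0 : 0 < X := by linarith
    refine ⟨by positivity, Real.rpow_le_one (by positivity) ?_ (by norm_num)⟩
    rw [div_le_one hX0]
    refine hYX.trans ?_
    apply div_le_self hX0.le
    rw [hC]
    linarith
  refine ⟨c, C, hc0, hC0, ?_, ?_, ?_⟩
  · -- inside the range of the problem
    intro δ hδ hδc x
    set a : ℝ := c₁ / (40 * δ) with ha
    have ha0 : 0 < a := by positivity
    have haB : B ≤ a := by
      have h1 : δ ≤ c₁ / (40 * B) := hδc.trans hcB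
      rw [ha, le_div_iff₀ (by positivity)]
      rw [le_div_iff₀ (by positivity)] at h1
      linarith
    -- choice of `D`
    have ev : ∀ᶠ D : ℝ in atTop, (2 ≤ D ∧ x ≤ D ^ a ∧ X₀ ≤ D ^ a ∧
        Real.exp (Real.exp (c / δ)) ≤ D ^ a ∧ 40 * (a * Real.log D) ≤ D ^ c₁) ∧ 3 ≤ D ^ a := by
      have e1 : ∀ᶠ D : ℝ in atTop, (2 : ℝ) ≤ D := eventually_ge_atTop _
      have e2 : ∀ z : ℝ, ∀ᶠ D : ℝ in atTop, z ≤ D ^ a := fun z =>
        (tendsto_rpow_atTop ha0).eventually_ge_atTop z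
      have e3 : ∀ᶠ D : ℝ in atTop, 40 * (a * Real.log D) ≤ D ^ c₁ := by
        have := (isLittleO_log_rpow_atTop hc₁).bound (show (0 : ℝ) < 1 / (40 * a) by positivity)
        filter_upwards [this, eventually_ge_atTop (1 : ℝ)] with D hD h1
        rw [Real.norm_of_nonneg (Real.log_nonneg h1), Real.norm_of_nonneg (by positivity)] at hD
        rw [one_div_mul_eq_div, le_div_iff₀ (by positivity)] at hD
        linarith
      exact (e1.and ((e2 x).and ((e2 X₀).and ((e2 _).and e3)))).and (e2 3)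
    obtain ⟨D₀, hD₀⟩ := eventually_atTop.1 ev
    obtain ⟨D, hDS, hD⟩ := hlarge D₀
    obtain ⟨⟨d1, d2, d3, d4, d5⟩, d6⟩ := hD₀ D hD
    have hlD : 0 < Real.log D := Real.log_pos (by linarith)
    obtain ⟨X, hX1, hN, hX3, g1, g2, l1, l2⟩ := pick D a d1 (hB.trans haB) haB d3 d6 d5
    have hX0 : 0 < X := by linarith
    have hlX : 0 < Real.log X := Real.log_pos (by linarith)
    have hee : Real.exp (c / δ) ≤ Real.log X := by
      rw [Real.le_log_iff_exp_le hX0]
      exact d4.trans hX1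
    refine ⟨X, d2.trans hX1, fun Y hY1 hY2 => ?_⟩
    have g3 : X * (D : ℝ) ^ (-c₁) ≤ Y := by
      refine low D X Y δ d1 hX3 ?_ hY1
      have h1 : Real.log X * δ ≤ 40 * (a * Real.log D) * δ := mul_le_mul_of_nonneg_right l2 hδ.le
      have h2 : 40 * (a * Real.log D) * δ = Real.log D * c₁ := by
        rw [ha]
        field_simp
      linarith
    have hY1' : 1 ≤ Y := by
      refine le_trans ?_ hY1
      apply Real.one_le_rpow (by linarith)
      linarith
    obtain ⟨q0, q1⟩ := hquarter X Y hX3 hY1' hY2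
    have k1 : Real.exp (-(c₁ * Real.log X / Real.log D)) ≤ Real.exp (-(c / δ)) := by
      apply Real.exp_le_exp.2
      apply neg_le_neg
      rw [le_div_iff₀ hlD]
      have h1 : c₁ * (a * Real.log D) ≤ c₁ * Real.log X := mul_le_mul_of_nonneg_left l1 hc₁.le
      have h2 : c / δ ≤ c₁ * a := by
        rw [ha, div_le_iff₀ hδ]
        have h3 : c₁ * (c₁ / (40 * δ)) * δ = c₁ ^ 2 / 40 := by
          field_simp
        rw [h3]
        have : 0 < c₁ ^ 2 := by positivity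
        linarith
      have h3 : c / δ * Real.log D ≤ c₁ * a * Real.log D := mul_le_mul_of_nonneg_right h2 hlD.le
      linarith
    have k2 : 1 ≤ Real.exp (-(c / δ)) * Real.log X := by
      have h1 : Real.exp (-(c / δ)) * Real.exp (c / δ) = 1 := by
        rw [← Real.exp_add]
        simp
      have h2 := mul_le_mul_of_nonneg_left hee (Real.exp_pos (-(c / δ))).le
      linarith
    have k4 : ∀ t : ℝ, t ≤ 1 → Real.exp (-(c₁ * Real.log X / Real.log D)) * Real.log X +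
        (Y / X) ^ (1 / 4 : ℝ) + t ≤ 3 * (Real.exp (-(c / δ)) * Real.log X) := by
      intro t ht
      have h1 : Real.exp (-(c₁ * Real.log X / Real.log D)) * Real.log X ≤
          Real.exp (-(c / δ)) * Real.log X := mul_le_mul_of_nonneg_right k1 hlX.le
      linarith
    have h2 : 1 / Real.log X ≤ 1 := by
      rw [div_le_one hlX]
      have : (1 : ℝ) ≤ Real.exp (c / δ) := Real.one_le_exp (by positivity)
      linarith
    have h3 : (D : ℝ) ^ (-c₁) ≤ 1 :=
      Real.rpow_le_one_of_one_le_of_nonpos (by linarith) (by linarith)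
    obtain ⟨m1, m2, -⟩ := main D hDS d1 X Y (Real.exp (-(c / δ)) * Real.log X) hX3 g1 g2 g3 hY1' hY2
      (k4 _ h2) (k4 _ h3) (by positivity)
    constructor
    · refine (m1 (Or.inl hN)).trans (le_of_eq ?_)
      ring
    · refine m2.trans (le_of_eq ?_)
      ring
  · -- second order term, `Q ≥ X ^ (1 - c / log log X)`
    intro x
    set K : ℝ := 4 / c₁ with hK
    have hK0 : 0 < K := by positivity
    have ev : ∀ᶠ u : ℝ in atTop, (3 ≤ u ∧ x ≤ u ∧ X₀ ≤ u ∧ B ≤ K * Real.log u) ∧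
        40 * (K * Real.log u) ≤ u ∧ u ^ 2 ≤ Real.exp (c₁ * u) := by
      have e1 : ∀ z : ℝ, ∀ᶠ u : ℝ in atTop, z ≤ u := fun z => eventually_ge_atTop z
      have e2 : ∀ᶠ u : ℝ in atTop, B ≤ K * Real.log u :=
        (Real.tendsto_log_atTop.const_mul_atTop hK0).eventually_ge_atTop B
      have e3 : ∀ᶠ u : ℝ in atTop, 40 * (K * Real.log u) ≤ u := by
        have := (Real.isLittleO_log_id_atTop).bound (show (0 : ℝ) < 1 / (40 * K) by positivity)
        filter_upwards [this, eventually_ge_atTop (1 : ℝ)] with u hu h1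
        rw [Real.norm_of_nonneg (Real.log_nonneg h1), id, Real.norm_of_nonneg (by linarith)] at hu
        rw [one_div_mul_eq_div, le_div_iff₀ (by positivity)] at hu
        linarith
      have e4 : ∀ᶠ u : ℝ in atTop, u ^ 2 ≤ Real.exp (c₁ * u) := by
        have h1 := (isLittleO_pow_exp_pos_mul_atTop 2 hc₁).bound one_pos
        filter_upwards [h1, eventually_ge_atTop (0 : ℝ)] with u hu h0
        rw [Real.norm_of_nonneg (by positivity), Real.norm_of_nonneg (by positivity), one_mul] at hu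
        exact hu
      exact ((e1 3).and ((e1 x).and ((e1 X₀).and e2))).and (e3.and e4)
    obtain ⟨U, hU⟩ := eventually_atTop.1 ev
    obtain ⟨D, hDS, hD⟩ := hlarge (Real.exp U)
    have hDpos : (0 : ℝ) < D := (Real.exp_pos _).trans_le hD
    set u : ℝ := Real.log D with hu
    have huU : U ≤ u := by
      rw [hu, Real.le_log_iff_exp_le hDpos]
      exact hD
    obtain ⟨⟨d1, d2, d3, d4⟩, d5, d6⟩ := hU u huU
    have hu0 : 0 < u := by linarith
    have hDu : ∀ z : ℝ, (D : ℝ) ^ z = Real.exp (z * u) := by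
      intro z
      rw [Real.rpow_def_of_pos hDpos, mul_comm]
    have hDe : (D : ℝ) = Real.exp u := by rw [hu, Real.exp_log hDpos]
    have hue : u ≤ (D : ℝ) := by
      rw [hDe]
      have := Real.add_one_le_exp u
      linarith
    set w : ℝ := Real.log u with hw
    have hw1 : 1 ≤ w := by
      rw [hw, Real.le_log_iff_exp_le hu0]
      have := Real.exp_one_lt_d9
      linarith
    set a : ℝ := K * w with ha
    have ha1 : 1 ≤ a := hB.trans d4
    have hDa : (D : ℝ) ≤ (D : ℝ) ^ a := by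
      calc (D : ℝ) = (D : ℝ) ^ (1 : ℝ) := (Real.rpow_one _).symm
        _ ≤ (D : ℝ) ^ a := Real.rpow_le_rpow_of_exponent_le (by linarith) ha1
    have hau : 40 * (a * u) ≤ u ^ 2 := by nlinarith
    obtain ⟨X, hX1, hN, hX3, g1, g2, l1, l2⟩ := pick D a (by linarith) ha1 d4
      (by linarith) (by linarith) (by rw [hDu]; exact hau.trans d6)
    rw [← hu] at l1 l2
    have hX0 : 0 < X := by linarith
    have hlX : 0 < Real.log X := Real.log_pos (by linarith)
    set v : ℝ := Real.log X with hv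
    have hv1 : u ≤ v := by nlinarith
    have hv2 : v ≤ u ^ 2 := l2.trans hau
    have hlv : w ≤ Real.log v := Real.log_le_log hu0 hv1
    have hlv0 : 0 < Real.log v := by linarith
    refine ⟨X, by linarith, fun Y hY1 hY2 => ?_⟩
    have hclv : c / Real.log v ≤ 1 := by
      rw [div_le_one hlv0]
      linarith
    have g3 : X * (D : ℝ) ^ (-c₁) ≤ Y := by
      refine low D X Y (c / Real.log v) (by linarith) hX3 ?_ hY1
      rw [← hu, ← hv, mul_div_assoc', div_le_iff₀ hlv0]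
      have h1 : v * c ≤ 40 * (a * u) * c := mul_le_mul_of_nonneg_right l2 hc0.le
      have h2 : 40 * (a * u) * c ≤ 40 * (a * u) * (c₁ ^ 2 / 160) :=
        mul_le_mul_of_nonneg_left hc2 (by positivity)
      have h3 : 40 * (a * u) * (c₁ ^ 2 / 160) = c₁ * u * w := by
        rw [ha, hK]
        field_simp
        norm_num
      have h4 : c₁ * u * w ≤ c₁ * u * Real.log v := mul_le_mul_of_nonneg_left hlv (by positivity)
      linarith
    have hY1' : 1 ≤ Y := by
      refine le_trans ?_ hY1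
      apply Real.one_le_rpow (by linarith)
      linarith
    obtain ⟨q0, q1⟩ := hquarter X Y hX3 hY1' hY2
    have k1 : Real.exp (-(c₁ * v / u)) * v ≤ 1 / v := by
      rw [le_div_iff₀ hlX]
      have h1 : Real.exp (-(c₁ * v / u)) ≤ Real.exp (-(4 * w)) := by
        apply Real.exp_le_exp.2
        apply neg_le_neg
        rw [le_div_iff₀ hu0]
        have h2 : c₁ * (a * u) ≤ c₁ * v := mul_le_mul_of_nonneg_left l1 hc₁.le
        have h3 : c₁ * (a * u) = 4 * w * u := by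
          rw [ha, hK]
          field_simp
        linarith
      have h2 : Real.exp (-(4 * w)) * u ^ 4 = 1 := by
        have h3 : u ^ 4 = Real.exp (4 * w) := by
          rw [hw, show (4 : ℝ) * Real.log u = Real.log (u ^ 4) by
            rw [Real.log_pow]; norm_num, Real.exp_log (by positivity)]
        rw [h3, ← Real.exp_add]
        simp
      have h3 : v * v ≤ u ^ 4 := by
        calc v * v ≤ u ^ 2 * u ^ 2 := mul_le_mul hv2 hv2 hlX.le (by positivity)
          _ = u ^ 4 := by ring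
      calc Real.exp (-(c₁ * v / u)) * v * v = Real.exp (-(c₁ * v / u)) * (v * v) := by ring
        _ ≤ Real.exp (-(4 * w)) * u ^ 4 :=
            mul_le_mul h1 h3 (by positivity) (Real.exp_pos _).le
        _ = 1 := h2
    have k2 : (D : ℝ) ^ (-c₁) ≤ 1 / v := by
      rw [hDu, neg_mul, le_div_iff₀ hlX]
      have h1 : Real.exp (-(c₁ * u)) * Real.exp (c₁ * u) = 1 := by
        rw [← Real.exp_add]
        simp
      have h2 := mul_le_mul_of_nonneg_left (hv2.trans d6) (Real.exp_pos (-(c₁ * u))).le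
      linarith
    have hiv : 0 < 1 / v := by positivity
    obtain ⟨m1, m2, -⟩ := main D hDS (by linarith) X Y ((Y / X) ^ (1 / 4 : ℝ) + 1 / v) hX3 g1 g2 g3
      hY1' hY2 (by linarith) (by linarith) (by linarith)
    exact ⟨m1 (Or.inl hN), m2⟩
  · -- nothing removed
    intro x
    have ev : ∀ᶠ u : ℝ in atTop, (3 ≤ u ∧ x ≤ u ∧ B ≤ u) ∧ u ^ 4 ≤ Real.exp (c₁ * u) := by
      have e1 : ∀ z : ℝ, ∀ᶠ u : ℝ in atTop, z ≤ u := fun z => eventually_ge_atTop z
      have e4 : ∀ᶠ u : ℝ in atTop, u ^ 4 ≤ Real.exp (c₁ * u) := by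
        have h1 := (isLittleO_pow_exp_pos_mul_atTop 4 hc₁).bound one_pos
        filter_upwards [h1, eventually_ge_atTop (0 : ℝ)] with u hu h0
        rw [Real.norm_of_nonneg (by positivity), Real.norm_of_nonneg (by positivity), one_mul] at hu
        exact hu
      exact ((e1 3).and ((e1 x).and (e1 B))).and e4
    obtain ⟨U, hU⟩ := eventually_atTop.1 ev
    obtain ⟨D, hDS, hD⟩ := hlarge (Real.exp U)
    have hDpos : (0 : ℝ) < D := (Real.exp_pos _).trans_le hD
    set u : ℝ := Real.log D with hu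
    have huU : U ≤ u := by
      rw [hu, Real.le_log_iff_exp_le hDpos]
      exact hD
    obtain ⟨⟨d1, d2, d3⟩, -⟩ := hU u huU
    have hu0 : 0 < u := by linarith
    have hDu : ∀ z : ℝ, (D : ℝ) ^ z = Real.exp (z * u) := by
      intro z
      rw [Real.rpow_def_of_pos hDpos, mul_comm]
    have hDe : (D : ℝ) = Real.exp u := by rw [hu, Real.exp_log hDpos]
    have hD2 : 2 ≤ (D : ℝ) := by
      rw [hDe]
      have := Real.add_one_le_exp u
      linarith
    have hsq : Real.sqrt (Real.log (Real.exp (u ^ 2))) = u := by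
      rw [Real.log_exp]
      exact Real.sqrt_sq hu0.le
    refine ⟨Real.exp (u ^ 2), ?_, fun X hX1 hX2 Y hY1 hY2 => ?_⟩
    · have h3 := Real.add_one_le_exp (u ^ 2)
      nlinarith
    rw [hsq] at hX2 hY1
    have hX3 : 3 ≤ X := by
      have h3 := Real.add_one_le_exp (u ^ 2)
      nlinarith
    have hX0 : 0 < X := by linarith
    have hlX : 0 < Real.log X := Real.log_pos (by linarith)
    set v : ℝ := Real.log X with hv
    have hv1 : u ^ 2 ≤ v := by
      rw [hv, Real.le_log_iff_exp_le hX0]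
      exact hX1
    have hv2 : v ≤ Real.exp (c * u) := by
      rw [hv, Real.log_le_iff_le_exp hX0]
      exact hX2
    have hcu : c * u ≤ c₁ * u := mul_le_mul_of_nonneg_right hc3 hu0.le
    have hv3 : v ≤ Real.exp (c₁ * u) := hv2.trans (Real.exp_le_exp.2 hcu)
    have g1 : (D : ℝ) ^ B ≤ X := by
      rw [hDu]
      refine le_trans (Real.exp_le_exp.2 ?_) hX1
      nlinarith
    have g2 : X ≤ Real.exp ((D : ℝ) ^ c₁) := by
      rw [hDu, ← Real.log_le_iff_le_exp hX0]
      exact hv3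
    have hce : Real.exp (-(c₁ * u)) ≤ Real.exp (-(c * u)) := Real.exp_le_exp.2 (by linarith)
    have g3 : X * (D : ℝ) ^ (-c₁) ≤ Y := by
      refine le_trans ?_ hY1
      apply mul_le_mul_of_nonneg_left _ hX0.le
      rw [hDu, neg_mul]
      exact hce
    have g5 : X * Real.exp (-(c₁ * v / u)) ≤ Y := by
      refine le_trans ?_ hY1
      apply mul_le_mul_of_nonneg_left _ hX0.le
      refine le_trans (Real.exp_le_exp.2 ?_) hce
      apply neg_le_neg
      rw [le_div_iff₀ hu0]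
      nlinarith
    have hY1' : 1 ≤ Y := by
      refine le_trans ?_ hY1
      calc (1 : ℝ) ≤ Real.exp (u ^ 2 - c * u) := Real.one_le_exp (by nlinarith)
        _ = Real.exp (u ^ 2) * Real.exp (-(c * u)) := by rw [← Real.exp_add]; ring_nf
        _ ≤ X * Real.exp (-(c * u)) := mul_le_mul_of_nonneg_right hX1 (Real.exp_pos _).le
    obtain ⟨q0, q1⟩ := hquarter X Y hX3 hY1' hY2
    have k1 : Real.exp (-(c₁ * v / u)) * v ≤ 1 / v := by
      rw [le_div_iff₀ hlX]
      set s : ℝ := Real.sqrt v with hs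
      have hss : s ^ 2 = v := Real.sq_sqrt hlX.le
      have hs0 : 0 < s := Real.sqrt_pos.2 hlX
      have hus : u ≤ s := by
        rw [hs]
        exact Real.le_sqrt_of_sq_le hv1
      obtain ⟨-, hs4⟩ := hU s (huU.trans hus)
      have h1 : Real.exp (-(c₁ * v / u)) ≤ Real.exp (-(c₁ * s)) := by
        apply Real.exp_le_exp.2
        apply neg_le_neg
        rw [le_div_iff₀ hu0, ← hss]
        have : s * u ≤ s ^ 2 := by nlinarith
        nlinarith
      have h2 : Real.exp (-(c₁ * s)) * Real.exp (c₁ * s) = 1 := by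
        rw [← Real.exp_add]
        simp
      calc Real.exp (-(c₁ * v / u)) * v * v = Real.exp (-(c₁ * v / u)) * s ^ 4 := by
            rw [← hss]; ring
        _ ≤ Real.exp (-(c₁ * s)) * Real.exp (c₁ * s) :=
            mul_le_mul h1 hs4 (by positivity) (Real.exp_pos _).le
        _ = 1 := h2
    have k2 : (D : ℝ) ^ (-c₁) ≤ 1 / v := by
      rw [hDu, neg_mul, le_div_iff₀ hlX]
      have h1 : Real.exp (-(c₁ * u)) * Real.exp (c₁ * u) = 1 := by
        rw [← Real.exp_add]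
        simp
      have h2 := mul_le_mul_of_nonneg_left hv3 (Real.exp_pos (-(c₁ * u))).le
      linarith
    have hiv : 0 < 1 / v := by positivity
    obtain ⟨m1, -, m3⟩ := main D hDS hD2 X Y ((Y / X) ^ (1 / 4 : ℝ) + 1 / v) hX3 g1 g2 g3
      hY1' hY2 (by linarith) (by linarith) (by linarith)
    exact ⟨m1 (Or.inr g5), m3 g5⟩

end Pool.Agent.Results.MP_5dd4bb_nt.AlmostAllModuli
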