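import Pool.Agent.Lib_helper26.XSF.DA2
import Pool.Agent.Lib_helper26.XSB.All
import Pool.Agent.Lib_helper59.XTG.D
import Pool.Agent.Lib_helper99.AAXG.C

/-!
# The Friedlander-Goldston asymptotic and the zeros of Dirichlet L-functions

Q1 implies that no Dirichlet L-function has a zero with real part greater than `3 / 4`, and this
zero-free half-plane is equivalent to a crude bound for the variance of one single modulus. In the
same way the asymptotic formula on average is equivalent to a zero-free half-plane.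
-/

set_option autoImplicit false

namespace Pool.Agent.Results.MP_5dd4bb_nt.ExactStrength

/-- The variance of the primes up to `X` in the reduced residue classes modulo `Q`. -/
noncomputable def G (X : ℝ) (Q : ℕ) : ℝ :=
  ∑ a ∈ (Finset.range Q).filter (fun a => Nat.Coprime a Q),
    ((∑ n ∈ (Finset.Icc 1 ⌊X⌋₊).filter (fun n => n % Q = a), ArithmeticFunction.vonMangoldt n)
      - X / (Nat.totient Q : ℝ)) ^ 2

/-- The conjectured value of `G X Q`, with the second order term: `X log Q - C_Q X`. -/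
noncomputable def M (X : ℝ) (Q : ℕ) : ℝ :=
  X * (Real.log Q - (Real.eulerMascheroniConstant + Real.log (2 * Real.pi)
    + ∑ p ∈ Q.primeFactors, Real.log (p : ℝ) / ((p : ℝ) - 1)))

/-- (0): the asymptotic formula for every modulus `Q` with `X ^ (κ + ε) < Q < X ^ (1 - ε)`. For
`κ = 1 / 2` this is Q1. -/
def EveryModulus (κ : ℝ) : Prop :=
  ∀ ε : ℝ, 0 < ε → ∀ η : ℝ, 0 < η → ∃ C : ℝ, ∀ (X : ℝ) (Q : ℕ), C ≤ X → X ^ (κ + ε) < (Q : ℝ) →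
    (Q : ℝ) < X ^ (1 - ε) → |G X Q - M X Q| ≤ η * X

/-- (1a): the asymptotic formula in absolute mean over all moduli `Q ≤ Y`, for
`X ^ (κ + ε) ≤ Y = o(X)`. So it holds for almost all moduli. -/
def AlmostEveryModulus (κ : ℝ) : Prop :=
  ∀ ε : ℝ, 0 < ε → ∀ η : ℝ, 0 < η → ∃ C : ℝ, ∀ (X : ℝ) (Y : ℕ), C ≤ X → X ^ (κ + ε) ≤ (Y : ℝ) →
    C * (Y : ℝ) ≤ X → ∑ Q ∈ Finset.Icc 1 Y, |G X Q - M X Q| ≤ η * X * Y

/-- (1): the asymptotic formula in mean (with sign) over all moduli `Q ≤ Y`, for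
`X ^ (κ + ε) ≤ Y = o(X)`. -/
def InMean (κ : ℝ) : Prop :=
  ∀ ε : ℝ, 0 < ε → ∀ η : ℝ, 0 < η → ∃ C : ℝ, ∀ (X : ℝ) (Y : ℕ), C ≤ X → X ^ (κ + ε) ≤ (Y : ℝ) →
    C * (Y : ℝ) ≤ X → |∑ Q ∈ Finset.Icc 1 Y, (G X Q - M X Q)| ≤ η * X * Y

/-- (2): the crude bound `G X Q ≤ X ^ (1 + ε)` for almost all `Q ≤ Y`, for
`X ^ (κ + ε) ≤ Y ≤ X ^ (1 - ε)`. -/
def AlmostAll (κ : ℝ) : Prop :=
  ∀ ε : ℝ, 0 < ε → ∀ η : ℝ, 0 < η → ∃ C : ℝ, ∀ (X : ℝ) (Y : ℕ), C ≤ X → X ^ (κ + ε) ≤ (Y : ℝ) →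
    (Y : ℝ) ≤ X ^ (1 - ε) →
    (((Finset.Icc 1 Y).filter (fun Q : ℕ => X ^ (1 + ε) < G X Q)).card : ℝ) ≤ η * Y

/-- (2a): the bound in mean over the multiples `q * p`, `p` a prime in `(P, 2 * P]`, of every fixed
`q`, for `X ^ (κ + ε) ≤ P = o(X)`. -/
def PrimeMultiples (κ : ℝ) : Prop :=
  ∀ ε : ℝ, 0 < ε → ∀ q : ℕ, 1 ≤ q → ∃ C : ℝ, ∀ (X : ℝ) (P : ℕ), C ≤ X → X ^ (κ + ε) ≤ (P : ℝ) →
    C * (P : ℝ) ≤ X →
    ∑ p ∈ (Finset.Ioc P (2 * P)).filter Nat.Prime, G X (q * p) ≤ C * X * P * Real.log X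

/-- (3): the crude bound for one multiple `Q ≤ X ^ (κ + ε)` of every fixed `q`. -/
def OneModulus (κ : ℝ) : Prop :=
  ∀ ε : ℝ, 0 < ε → ∀ q : ℕ, 1 ≤ q → ∃ C : ℝ, ∀ X : ℝ, C ≤ X →
    ∃ Q : ℕ, 1 ≤ Q ∧ q ∣ Q ∧ (Q : ℝ) ≤ X ^ (κ + ε) ∧ G X Q ≤ X ^ (1 + ε)

/-- (4), for `θ = (1 + κ) / 2`: no Dirichlet `L`-function vanishes at a point `s ≠ 1` with real part
greater than `θ`. -/
def NoZeros (θ : ℝ) : Prop :=
  ∀ (q : ℕ) [NeZero q] (χ : DirichletCharacter ℂ q) (s : ℂ), θ < s.re → s ≠ 1 →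
    χ.LFunction s ≠ 0

/-- The exact strength of the Friedlander-Goldston asymptotic: the chain
`(0) → (1a) → (1) → (2) → (3) → (4)` with `(2a) → (3)`, and the converses
`(4) → (2a)` for `κ ≥ 1/2`, `(4) → (1)` for `κ ≥ 9/16`, `(4) → (1a)` for `κ ≥ 4/5`. -/
theorem result (κ : ℝ) (h0 : 0 < κ) (h1 : κ < 1) :
    (EveryModulus κ → AlmostEveryModulus κ) ∧ (AlmostEveryModulus κ → InMean κ) ∧
      (InMean κ → AlmostAll κ) ∧ (AlmostAll κ → OneModulus κ) ∧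
      (PrimeMultiples κ → OneModulus κ) ∧ (OneModulus κ → NoZeros ((1 + κ) / 2)) ∧
      (1 / 2 ≤ κ → NoZeros ((1 + κ) / 2) → PrimeMultiples κ) ∧
      (9 / 16 ≤ κ → NoZeros ((1 + κ) / 2) → InMean κ) ∧
      (4 / 5 ≤ κ → NoZeros ((1 + κ) / 2) → AlmostEveryModulus κ) := by
  refine ⟨Pool.Agent.XS.every_to_abs h0 h1 (fun κ' h2 h3 h4 => Pool.Agent.AAX.almost_every h2 h3 h4),
    ?_, Pool.Agent.XS.mean_to_almost h0 h1, Pool.Agent.XS.almost_to_one h0 h1,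
    Pool.Agent.XS.pm_to_one h0 h1, Pool.Agent.XS.one_to_zf h0 h1,
    fun h => Pool.Agent.XS.zf_to_pm h h1, fun h => Pool.Agent.XT.zf_to_mean9 h h1,
    fun h => Pool.Agent.AAX.almost_every h h1⟩
  intro h ε hε η hη
  obtain ⟨C, hC⟩ := h ε hε η hη
  exact ⟨C, fun X Y h1 h2 h3 => (Finset.abs_sum_le_sum_abs _ _).trans (hC X Y h1 h2 h3)⟩

end Pool.Agent.Results.MP_5dd4bb_nt.ExactStrength
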