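import Pool.Agent.Lib_helper61.FG.P.MainD
import Pool.Agent.Lib_helper73.Var.FinalA2

set_option autoImplicit false

namespace Pool.Agent.Results.MP_5dd4bb_nt.LowerBoundDistribution

/-- Unconditional lower bound for the variance `G(X,Q)` of primes in the progressions modulo `Q`,
with the number of exceptional moduli: for every `V ≥ 1` at most `Y / V` of the moduli `Q ≤ Y` have
`G(X,Q) < X (2 log Q - (1 + ε) log X - min (log V) (1/2 log Q))`.
For `V > Y` there is no exceptional modulus: every `Q ≤ X` has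
`G(X,Q) ≥ X (3/2 log Q - (1 + ε) log X)`. -/
theorem result :
    ∀ ε : ℝ, 0 < ε → ∃ X₀ : ℝ, ∀ X : ℝ, X₀ ≤ X → ∀ Y V : ℝ, 0 ≤ Y → Y ≤ X → 1 ≤ V →
      (((Finset.Icc 1 ⌊Y⌋₊).filter (fun Q : ℕ =>
          ∑ a ∈ (Finset.range Q).filter (fun a => Nat.Coprime a Q),
              ((∑ n ∈ (Finset.Icc 1 ⌊X⌋₊).filter (fun n => n % Q = a),
                  ArithmeticFunction.vonMangoldt n) - X / (Nat.totient Q : ℝ)) ^ 2
            < X * (2 * Real.log Q - (1 + ε) * Real.log X
                - min (Real.log V) (1 / 2 * Real.log Q)))).card : ℝ) ≤ Y / V := by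
  intro ε hε
  obtain ⟨X₁, h₁⟩ := Pool.Agent.FG61.main_cum ε hε
  obtain ⟨X₂, h₂⟩ := Pool.Agent.Var73.lower_all ε hε
  refine ⟨max (max X₁ X₂) 0, fun X hX Y V hY hYX hV => ?_⟩
  have hX0 : 0 ≤ X := (le_max_right _ _).trans hX
  have hX1 : X₁ ≤ X := ((le_max_left _ _).trans (le_max_left _ _)).trans hX
  have hX2 : X₂ ≤ X := ((le_max_right _ _).trans (le_max_left _ _)).trans hX
  refine le_trans ?_ (h₁ X hX1 Y V hY (by linarith) hV)
  refine Nat.cast_le.2 (Finset.card_le_card ?_)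
  intro Q hQ
  rw [Finset.mem_filter, Finset.mem_Icc] at hQ
  rw [Finset.mem_filter, Finset.mem_Icc]
  refine ⟨hQ.1, ?_⟩
  have hQY : (Q : ℝ) ≤ Y := (Nat.le_floor_iff hY).1 hQ.1.2
  have hev := h₂ X hX2 Q hQ.1.1 (hQY.trans hYX)
  rw [← Pool.Agent.Var73.GV_eq] at hev
  have hlt := hQ.2
  have hG : Pool.Agent.FG61.GX X Q = ∑ a ∈ (Finset.range Q).filter (fun a => Nat.Coprime a Q),
              ((∑ n ∈ (Finset.Icc 1 ⌊X⌋₊).filter (fun n => n % Q = a),
                  ArithmeticFunction.vonMangoldt n) - X / (Nat.totient Q : ℝ)) ^ 2 := rfl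
  rw [hG]
  rcases le_total (Real.log V) (1 / 2 * Real.log Q) with h | h
  · rw [min_eq_left h] at hlt
    refine lt_of_lt_of_eq hlt ?_
    ring
  · rw [min_eq_right h] at hlt
    exfalso
    have : X * (2 * Real.log Q - (1 + ε) * Real.log X - 1 / 2 * Real.log Q)
      = X * (3 / 2 * Real.log Q - (1 + ε) * Real.log X) := by ring
    linarith

end Pool.Agent.Results.MP_5dd4bb_nt.LowerBoundDistribution
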