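import Pool.Agent.Lib_helper26.DH.Merge
import Pool.Agent.Lib_helper59.DH.All
import Pool.Agent.Lib_helper99.FGA.Prim

/-!
# The primes to prime moduli near `X`, and Siegel zeros

The main term of the variance `G(X,Q)` of the problem, on average over the primes `Q` near
`X ^ (1 - δ)`, for every large `X`: it is `X log Q`, unless there is a Siegel zero, which lowers it.
If there are Siegel zeros, then for arbitrarily large `X` it falls to the known lower bound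
`X (2 log Q - log X)`, so this bound cannot be improved without excluding Siegel zeros.
-/

set_option autoImplicit false

namespace Pool.Agent.Results.MP_5dd4bb_nt.SiegelDichotomy

open Filter

/-- The variance `G(X,Q)` of the problem. -/
noncomputable def G (X : ℝ) (Q : ℕ) : ℝ :=
  ∑ a ∈ (Finset.range Q).filter (fun a => Nat.Coprime a Q),
    ((∑ n ∈ (Finset.Icc 1 ⌊X⌋₊).filter (fun n => n % Q = a), ArithmeticFunction.vonMangoldt n)
      - X / (Nat.totient Q : ℝ)) ^ 2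

/-- `G(X,Q)` without the share of the principal character. -/
noncomputable def V (X : ℝ) (Q : ℕ) : ℝ :=
  G X Q - ((∑ n ∈ (Finset.Icc 1 ⌊X⌋₊).filter (fun n => Nat.Coprime n Q),
    ArithmeticFunction.vonMangoldt n) - X) ^ 2 / (Nat.totient Q : ℝ)

/-- The primes in `(Y, 2Y]`. -/
noncomputable def R (Y : ℝ) : Finset ℕ :=
  (Finset.Icc 1 ⌊2 * Y⌋₊).filter (fun Q : ℕ => Q.Prime ∧ Y < Q)

/-- The L-function of a primitive quadratic character modulo `q` vanishes at the real number `β`. -/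
def RealZero (q : ℕ) (β : ℝ) : Prop :=
  ∃ (_ : NeZero q) (χ : DirichletCharacter ℂ q), χ.IsPrimitive ∧ χ ≠ 1 ∧ χ ^ 2 = 1 ∧
    DirichletCharacter.LFunction χ (β : ℂ) = 0

/-- There are no Siegel zeros. -/
def NoSiegelZeros : Prop :=
  ∃ k : ℝ, 0 < k ∧ ∀ (q : ℕ) (β : ℝ), RealZero q β → β ≤ 1 - k / Real.log q

theorem G_eq (X : ℝ) (Q : ℕ) : G X Q = Pool.Agent.FGP.GV X Q := Pool.Agent.FGA.prim_gx X Q

theorem V_eq (X : ℝ) (Q : ℕ) : V X Q = Pool.Agent.SZ.V X Q := by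
  unfold V Pool.Agent.SZ.V Pool.Agent.FGP.PV0
  rw [G_eq]

theorem R_eq (Y : ℝ) : R Y = Pool.Agent.FGP.QR Y := rfl

theorem realZero_iff (q : ℕ) (β : ℝ) : RealZero q β ↔
    ∃ χ : DirichletCharacter ℂ q, Pool.Agent.SZ.Qd χ ∧ Pool.Agent.GA.LF χ (β : ℂ) = 0 := by
  constructor
  · rintro ⟨hq, χ, h1, h2, h3, h4⟩
    refine ⟨χ, ⟨Pool.Agent.GA.mem_Prm.2 ⟨h1, h2⟩, h3, NeZero.pos q⟩, ?_⟩
    unfold Pool.Agent.GA.LF
    rw [dif_neg (NeZero.ne q)]
    exact h4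
  · rintro ⟨χ, ⟨h1, h2, h3⟩, h4⟩
    have hq : NeZero q := ⟨by omega⟩
    obtain ⟨k1, k2⟩ := Pool.Agent.GA.mem_Prm.1 h1
    refine ⟨hq, χ, k1, k2, h2, ?_⟩
    unfold Pool.Agent.GA.LF at h4
    rw [dif_neg (NeZero.ne q)] at h4
    exact h4

theorem siegel_iff : NoSiegelZeros ↔ ∃ c₀ : ℝ, 0 < c₀ ∧ Pool.Agent.SZ.NS c₀ := by
  refine exists_congr fun c => and_congr_right fun _ => ⟨fun h q χ hχ h2 β hβ => ?_,
    fun h q β hz => ?_⟩
  · refine h q β ((realZero_iff q β).2 ⟨χ, ⟨hχ, h2, ?_⟩, hβ⟩)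
    rcases Nat.eq_zero_or_pos q with rfl | hq
    · unfold Pool.Agent.GA.LF at hβ
      rw [dif_pos rfl] at hβ
      exact absurd hβ one_ne_zero
    · exact hq
  · obtain ⟨χ, ⟨h1, h2, -⟩, h4⟩ := (realZero_iff q β).1 hz
    exact h q χ h1 h2 β h4

/-- For every large `X` the main term of the variance, on average over the primes `Q` near
`X ^ (1 - δ)`, is `X log Q`, unless there is a Siegel zero `β`, of conductor `q`, which lowers it by
`X ^ (2 β - 1) log⁺ (X / (q Q))`; hence any improvement of the known lower bound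
`X (2 log Q - log X)`, for a positive proportion of the primes in one interval `(Y, 2Y]`, is
equivalent to the non-existence of Siegel zeros. -/
theorem result :
    ∃ b c C δ₀ : ℝ, 0 < b ∧ 0 < c ∧ 0 < C ∧ 0 < δ₀ ∧ δ₀ < 1 ∧
    (∀ δ : ℝ, 0 < δ → δ ≤ δ₀ → Real.exp (-(c / δ)) ≤ δ / 100) ∧
    -- (A) the main term, for every large `X`
    (∀ δ : ℝ, 0 < δ → δ ≤ δ₀ →
      (∀ᶠ X : ℝ in atTop, ∀ Y : ℝ, X ^ (1 - δ) ≤ Y → Y ≤ X / C →
        (¬ ∃ (q : ℕ) (β : ℝ), RealZero q β ∧ (q : ℝ) ≤ X ^ δ ∧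
          1 - b / (δ * Real.log X) < β) →
        ∑ Q ∈ R Y, |V X Q - X * Real.log Q| ≤
          Real.exp (-(c / δ)) * (X * Real.log X) * (R Y).card) ∧
      (∀ ε : ℝ, 0 < ε → ∀ᶠ X : ℝ in atTop, ∀ Y : ℝ, X ^ (1 - δ) ≤ Y → Y ≤ X / C →
        ∀ (q : ℕ) (β : ℝ), RealZero q β → (q : ℝ) ≤ X ^ δ →
          1 - b / (δ * Real.log X) < β →
        ∑ Q ∈ R Y, |V X Q -
            (X * Real.log Q - X ^ (2 * β - 1) * max 0 (Real.log (X / (q * Q))))| ≤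
          (min (Real.exp (-(c / δ))) (C * Real.sqrt ((1 - β) * Real.log X)) + ε) *
            (X * Real.log X) * (R Y).card)) ∧
    -- (B) equivalent forms of the non-existence of Siegel zeros
    (NoSiegelZeros ↔ ∃ k : ℝ, 0 < k ∧ ∀ δ : ℝ, 0 < δ → δ ≤ k → ∀ᶠ X : ℝ in atTop, ∀ Y : ℝ,
      X ^ (1 - δ) ≤ Y → Y ≤ X / C →
      ∑ Q ∈ R Y, |V X Q - X * Real.log Q| ≤
        Real.exp (-(k / δ)) * (X * Real.log X) * (R Y).card) ∧
    (NoSiegelZeros ↔ ∃ δ : ℝ, 0 < δ ∧ δ ≤ δ₀ ∧ ∃ ε : ℝ, 0 < ε ∧ ∀ᶠ X : ℝ in atTop, ∃ Y : ℝ,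
      X ^ (1 - δ) ≤ Y ∧ Y ≤ X / C ∧ ε * (R Y).card ≤
        (((R Y).filter (fun Q : ℕ => X * (2 * Real.log Q - Real.log X) +
          ε * (X * Real.log X) ≤ G X Q)).card : ℝ)) ∧
    -- (C) the variance in the presence of Siegel zeros
    (¬ NoSiegelZeros → ∀ δ : ℝ, 0 < δ → δ ≤ δ₀ → ∀ ε : ℝ, 0 < ε → ∃ᶠ X : ℝ in atTop, ∀ Y : ℝ,
      X ^ (1 - δ) ≤ Y → Y ≤ X / C →
      ∑ Q ∈ R Y, |G X Q - X * (2 * Real.log Q - Real.log X)| ≤
        ε * (X * Real.log X) * (R Y).card) := by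
  obtain ⟨b, cA, C₁, hb, hcA, hC₁, hM⟩ := Pool.Agent.DH.merge Pool.Agent.DH.aa17 Pool.Agent.DH.aax17
  obtain ⟨c, C, δ₀, hc, hC, hδ₀, hδ1, e1, e0, e2, e3, e4⟩ :=
    Pool.Agent.DH.dichx Pool.Agent.SZ.f3 Pool.Agent.DH.f4x hcA hC₁ hM
  refine ⟨b, c, C, δ₀, hb, hc, hC, hδ₀, hδ1, e1, ?_, ?_, ?_, ?_⟩
  · intro δ hδ hδδ
    obtain ⟨g1, g2⟩ := e0 δ hδ hδδ
    constructor
    · filter_upwards [g1] with X hX
      intro Y hY1 hY2 hno
      simp only [V_eq, R_eq]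
      refine hX Y hY1 hY2 fun q χ β hexc => hno ?_
      obtain ⟨m1, m2, m3, m4⟩ := hexc
      rw [one_mul] at m1
      exact ⟨q, β, (realZero_iff q β).2 ⟨χ, m2, m3⟩, m1, m4⟩
    · intro ε hε
      filter_upwards [g2 ε hε] with X hX
      intro Y hY1 hY2 q β hz hq hβ
      simp only [V_eq, R_eq]
      obtain ⟨χ, m2, m3⟩ := (realZero_iff q β).1 hz
      exact hX Y hY1 hY2 q χ β ⟨by rwa [one_mul], m2, m3, hβ⟩
  · rw [siegel_iff, e2]
    unfold Pool.Agent.SD.BBs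
    simp only [V_eq, R_eq]
  · rw [siegel_iff, e3]
    unfold Pool.Agent.DH.CCe
    simp only [G_eq, R_eq]
  · rw [siegel_iff]
    intro hn δ hδ hδδ ε hε
    have h := e4 hn δ hδ hδδ ε hε
    unfold Pool.Agent.DH.DDe at h
    simp only [G_eq, R_eq]
    exact h

end Pool.Agent.Results.MP_5dd4bb_nt.SiegelDichotomy
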